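import Mathlib
import Pool.Agent.Helper40.CX.CHI.Defs

/-!
# Additive base change of Weierstrass models in characteristic `p`

`pullB W p` is the Weierstrass equation obtained from `W` by the base change `u = w ^ p - w`, where
`(u0 : u1) = (1 : u)`, and `rotB` is the automorphism `w ↦ w + 1` of it,
`(u0 : u1; x : y : z) ↦ (u0 : u1 + u0; x : y : z)`.
-/

set_option autoImplicit false
set_option linter.unusedSectionVars false

namespace CX.CHB

open CX.VC CX.VF Function Polynomial
open CX.Pool.Agent.Helper51.EW (Wei Coord WPt)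

universe u

section

variable {k : Type u} [Field k] (p : ℕ)

/-- The map `(u0, u1) ↦ (u0 ^ p, u1 ^ p - u1 u0 ^ (p - 1))`. -/
def asw {K : Type u} [Field K] (u : Fin 2 → K) : Fin 2 → K :=
  ![u 0 ^ p, u 1 ^ p - u 1 * u 0 ^ (p - 1)]

/-- The forms `u0 ^ p, u1 ^ p - u1 u0 ^ (p - 1)`. -/
noncomputable def asg (k : Type u) [Field k] : Fin 2 → MvPolynomial (Fin 2) k :=
  ![MvPolynomial.X 0 ^ p, MvPolynomial.X 1 ^ p - MvPolynomial.X 1 * MvPolynomial.X 0 ^ (p - 1)]

variable {p}

theorem asg_hom (hp : p ≠ 0) (i : Fin 2) : (asg p k i).IsHomogeneous p := by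
  fin_cases i
  · change (MvPolynomial.X 0 ^ p : MvPolynomial (Fin 2) k).IsHomogeneous p
    have h1 := (MvPolynomial.isHomogeneous_X k (0 : Fin 2)).pow p
    rwa [one_mul] at h1
  · change (MvPolynomial.X 1 ^ p - MvPolynomial.X 1 * MvPolynomial.X 0 ^ (p - 1) :
      MvPolynomial (Fin 2) k).IsHomogeneous p
    have h1 := (MvPolynomial.isHomogeneous_X k (1 : Fin 2)).pow p
    have h2 := (MvPolynomial.isHomogeneous_X k (1 : Fin 2)).mul
      ((MvPolynomial.isHomogeneous_X k (0 : Fin 2)).pow (p - 1))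
    rw [one_mul] at h1
    rw [one_mul, show 1 + (p - 1) = p by omega] at h2
    exact h1.sub h2

theorem bindB_hom (hp : p ≠ 0) {F : MvPolynomial (Fin 2) k} {n : ℕ} (h : F.IsHomogeneous n) :
    (MvPolynomial.bind₁ (asg p k) F).IsHomogeneous (p * n) := by
  change (MvPolynomial.aeval (asg p k) F).IsHomogeneous (p * n)
  exact h.aeval _ (n := p) (asg_hom hp)

/-- The Weierstrass equation after the base change `u = w ^ p - w`. -/
noncomputable def pullB (W : Wei k) (p : ℕ) (hp : p ≠ 0) : Wei k where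
  N := p * W.N
  A := MvPolynomial.bind₁ (asg p k) W.A
  B := MvPolynomial.bind₁ (asg p k) W.B
  hA := by
    have h := bindB_hom hp W.hA
    rwa [show p * (4 * W.N) = 4 * (p * W.N) by ring] at h
  hB := by
    have h := bindB_hom hp W.hB
    rwa [show p * (6 * W.N) = 6 * (p * W.N) by ring] at h

theorem aeval_asg {K : Type u} [Field K] [Algebra k K] (F : MvPolynomial (Fin 2) k)
    (u : Fin 2 → K) :
    MvPolynomial.aeval u (MvPolynomial.bind₁ (asg p k) F) = MvPolynomial.aeval (asw p u) F := by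
  rw [MvPolynomial.aeval_bind₁]
  congr 2
  funext i
  fin_cases i
  · change MvPolynomial.aeval u (MvPolynomial.X 0 ^ p) = u 0 ^ p
    simp
  · change MvPolynomial.aeval u (MvPolynomial.X 1 ^ p -
      MvPolynomial.X 1 * MvPolynomial.X 0 ^ (p - 1)) = u 1 ^ p - u 1 * u 0 ^ (p - 1)
    simp

/-- The translation of the coordinate. -/
def trw {K : Type u} [Field K] (u : Fin 2 → K) : Fin 2 → K := ![u 0, u 1 + u 0]

theorem asw_trw {K : Type u} [Field K] [hp : Fact p.Prime] [CharP K p] (u : Fin 2 → K) :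
    asw p (trw u) = asw p u := by
  funext i
  fin_cases i
  · rfl
  · change (u 1 + u 0) ^ p - (u 1 + u 0) * u 0 ^ (p - 1) = u 1 ^ p - u 1 * u 0 ^ (p - 1)
    rw [add_pow_char]
    have h1 : u 0 * u 0 ^ (p - 1) = u 0 ^ p := by
      rw [← pow_succ', Nat.sub_add_cancel hp.out.one_le]
    linear_combination -h1

variable {W : Wei k} {hp : p ≠ 0} {K : Type u} [Field K] [Algebra k K]

/-- The automorphism on coordinates. -/
noncomputable def rotBC [Fact p.Prime] [CharP k p] (a : Coord (pullB W p hp) K) :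
    Coord (pullB W p hp) K where
  u := trw a.u
  w := a.w
  u_ne := by
    intro h
    have h0 : a.u 0 = 0 := congrFun h 0
    have h1 : a.u 1 + a.u 0 = 0 := congrFun h 1
    apply a.u_ne
    funext i
    fin_cases i
    · exact h0
    · change a.u 1 = 0
      rw [h0, add_zero] at h1
      exact h1
  w_ne := a.w_ne
  eqn := by
    have hc : CharP K p := charP_of_injective_algebraMap (algebraMap k K).injective p
    have h := a.eqn
    change a.w 1 ^ 2 * a.w 2 = a.w 0 ^ 3 +
      MvPolynomial.aeval a.u (MvPolynomial.bind₁ (asg p k) W.A) * a.w 0 * a.w 2 ^ 2 +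
      MvPolynomial.aeval a.u (MvPolynomial.bind₁ (asg p k) W.B) * a.w 2 ^ 3 at h
    change a.w 1 ^ 2 * a.w 2 = a.w 0 ^ 3 +
      MvPolynomial.aeval (trw a.u) (MvPolynomial.bind₁ (asg p k) W.A) * a.w 0 * a.w 2 ^ 2 +
      MvPolynomial.aeval (trw a.u) (MvPolynomial.bind₁ (asg p k) W.B) * a.w 2 ^ 3
    rw [aeval_asg, aeval_asg] at h ⊢
    rw [asw_trw]
    exact h

/-- The automorphism `(u0 : u1; x : y : z) ↦ (u0 : u1 + u0; x : y : z)`. -/
noncomputable def rotB [Fact p.Prime] [CharP k p] (q : WPt (pullB W p hp) K) :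
    WPt (pullB W p hp) K :=
  Quotient.map rotBC (by
    rintro a b ⟨l, c, hl, hc, h1, h2⟩
    refine ⟨l, c, hl, hc, fun i => ?_, h2⟩
    fin_cases i
    · exact h1 0
    · change b.u 1 + b.u 0 = l * (a.u 1 + a.u 0)
      rw [h1 0, h1 1]; ring) q

theorem rotB_mk [Fact p.Prime] [CharP k p] (a : Coord (pullB W p hp) K) :
    rotB (WPt.mk a) = WPt.mk (rotBC a) := rfl

end

end CX.CHB
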