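import Mathlib
import Pool.Agent.Helper9.NS
import Pool.Agent.Helper40.CX.CHB.Defs
import Pool.Agent.Helper40.CX.CHI.Twist
import Pool.Agent.Helper40.CX.H21TO.WCases
import Pool.Agent.Helper40.CX.H21TO.ExModel

/-!
# The cycles of the points of the Weierstrass model and the translation
-/

set_option autoImplicit false
set_option linter.unusedSectionVars false

namespace CX.CHB

open CX.VC CX.VF Function Polynomial CX.CHI
open CX.Pool.Agent.Helper51.EW (Wei Coord WPt aff zeroPt)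
open CX.Pool.Agent.Helper21.TO

universe u

variable {k : Type u} [Field k] [IsAlgClosed k] [CX.Good k] {W : Wei k} {p : ℕ} {hp : p ≠ 0}
  [Fact p.Prime] [CharP k p] {L : Type u} [Field L] [Algebra k L]

theorem aeval_trw {K : Type u} [Field K] [Algebra k K] (F : MvPolynomial (Fin 2) k)
    (c : Fin 2 → K) :
    MvPolynomial.aeval (trw c) (MvPolynomial.bind₁ (asg p k) F) =
      MvPolynomial.aeval c (MvPolynomial.bind₁ (asg p k) F) := by
  have hc : CharP K p := charP_of_injective_algebraMap (algebraMap k K).injective p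
  rw [aeval_asg, aeval_asg, asw_trw]

theorem ptJ_rotB {c c' : Fin 2 → k} (hc : c ≠ 0) (hc' : c' ≠ 0) (hcc : c' = trw c)
    (hA : MvPolynomial.aeval c' (pullB W p hp).A = 1 ^ 4 * MvPolynomial.aeval c (pullB W p hp).A)
    (hB : MvPolynomial.aeval c' (pullB W p hp).B = 1 ^ 6 * MvPolynomial.aeval c (pullB W p hp).B)
    (a : EPt (MvPolynomial.aeval c (pullB W p hp).A) (MvPolynomial.aeval c (pullB W p hp).B)) :
    rotB (ptJ (pullB W p hp) c hc a) = ptJ (pullB W p hp) c' hc' (scF 1 one_ne_zero hA hB a) := by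
  subst hcc
  rcases a with _ | ⟨x, y, hxy⟩
  · change rotB (WPt.mk (CX.Pool.Agent.Helper51.EW.zeroC c hc)) =
      WPt.mk (CX.Pool.Agent.Helper51.EW.zeroC (trw c) hc')
    rw [rotB_mk, CX.Pool.Agent.Helper51.EW.mk_eq_iff]
    refine ⟨1, 1, one_ne_zero, one_ne_zero, fun i => ?_, fun i => ?_⟩
    · change trw c i = 1 * trw c i
      rw [one_mul]
    · fin_cases i
      · change (0 : k) = 1 ^ (2 * (p * W.N)) * 1 * 0
        rw [mul_zero]
      · change (1 : k) = 1 ^ (3 * (p * W.N)) * 1 * 1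
        rw [one_pow, mul_one, mul_one]
      · change (0 : k) = 1 ^ 0 * 1 * 0
        rw [mul_zero]
  · change rotB (WPt.mk (CX.Pool.Agent.Helper51.EW.affC c x y hc (sw_nonsingular.mp hxy).1)) =
      WPt.mk (CX.Pool.Agent.Helper51.EW.affC (trw c) (1 ^ 2 * x) (1 ^ 3 * y) hc' _)
    rw [rotB_mk, CX.Pool.Agent.Helper51.EW.mk_eq_iff]
    refine ⟨1, 1, one_ne_zero, one_ne_zero, fun i => ?_, fun i => ?_⟩
    · change trw c i = 1 * trw c i
      rw [one_mul]
    · fin_cases i
      · change (1 : k) ^ 2 * x = 1 ^ (2 * (p * W.N)) * 1 * x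
        rw [one_pow, one_pow]; ring
      · change (1 : k) ^ 3 * y = 1 ^ (3 * (p * W.N)) * 1 * y
        rw [one_pow, one_pow]; ring
      · change (1 : k) = 1 ^ 0 * 1 * 1
        rw [pow_zero, one_mul, mul_one]

/-- The cycle of the image of a point is the image of its cycle. -/
theorem cycJ_rotB (D : Dat (pullB W p hp) L) {τ : L ≃ₐ[k] L} (hτ : τ D.t = D.t + 1)
    {g : Matrix (Fin D.M) (Fin D.M) k} (hl : Lin g D.I)
    {e : EPt D.a D.b} (he : TwG D.p D.q D.a D.b τ g e) (y : WPt (pullB W p hp) k) :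
    Nul D.S (cycJ D (rotB y) - Finsupp.mapDomain (linPt hl) (cycJ D y)) := by
  classical
  obtain ⟨b, rfl⟩ := CX.Pool.Agent.Helper51.EW.exists_mk y
  by_cases hd : disc (pullB W p hp) b.u = 0
  · rw [rotB_mk, cycJ_bad D b hd, cycJ_bad D (rotBC b) (by
      unfold disc at hd ⊢
      rw [show MvPolynomial.aeval (rotBC b).u (pullB W p hp).A =
        MvPolynomial.aeval b.u (pullB W p hp).A from aeval_trw W.A b.u,
        show MvPolynomial.aeval (rotBC b).u (pullB W p hp).B =
        MvPolynomial.aeval b.u (pullB W p hp).B from aeval_trw W.B b.u]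
      exact hd), Finsupp.mapDomain_zero, sub_zero]
    exact Nul.zero
  -- normalisation of the coordinates
  obtain ⟨b', hb', hbc⟩ : ∃ b' : Coord (pullB W p hp) k, WPt.mk b = WPt.mk b' ∧
      (b'.u 0 = 1 ∨ (b'.u 0 = 0 ∧ b'.u 1 = 1)) := by
    by_cases h0 : b.u 0 = 0
    · have h1 : b.u 1 ≠ 0 := by
        intro h1
        apply b.u_ne
        funext i
        fin_cases i
        · exact h0
        · exact h1
      refine ⟨CX.Pool.Agent.Helper51.EW.scale b (b.u 1)⁻¹ 1 (inv_ne_zero h1) one_ne_zero,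
        (CX.Pool.Agent.Helper51.EW.same_scale b _ _ _ _).symm, Or.inr ⟨?_, ?_⟩⟩
      · change (b.u 1)⁻¹ * b.u 0 = 0
        rw [h0, mul_zero]
      · exact inv_mul_cancel₀ h1
    · exact ⟨CX.Pool.Agent.Helper51.EW.scale b (b.u 0)⁻¹ 1 (inv_ne_zero h0) one_ne_zero,
        (CX.Pool.Agent.Helper51.EW.same_scale b _ _ _ _).symm, Or.inl (inv_mul_cancel₀ h0)⟩
  have hd' : disc (pullB W p hp) b'.u ≠ 0 := by
    obtain ⟨l, c, hl0, _, h1, _⟩ := CX.Pool.Agent.Helper51.EW.mk_eq_iff.mp hb'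
    have e : b'.u = fun i => l * b.u i := funext h1
    unfold disc at hd ⊢
    rw [e, CX.Pool.Agent.Helper51.EW.aeval_smul (pullB W p hp).hA,
      CX.Pool.Agent.Helper51.EW.aeval_smul (pullB W p hp).hB]
    intro h0
    apply hd
    have h2 : l ^ (12 * (pullB W p hp).N) * (4 * MvPolynomial.aeval b.u (pullB W p hp).A ^ 3 +
        27 * MvPolynomial.aeval b.u (pullB W p hp).B ^ 2) = 0 := by
      rw [← h0]
      ring
    exact (mul_eq_zero.mp h2).resolve_left (pow_ne_zero _ hl0)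
  rw [hb']
  clear hb' hd b
  obtain ⟨v, l, hb⟩ := exists_over_base D b'.u hbc
  obtain ⟨hs, hA, hB⟩ := hb.scale
  obtain ⟨mo⟩ := exists_model D v hs hA hB
  obtain ⟨a, ha⟩ := WCases.exists_ptJ b' b'.u b'.u_ne rfl hd'
  -- the other point of the base
  obtain ⟨c, hc⟩ : ∃ c, c = b'.u := ⟨_, rfl⟩
  obtain ⟨c', hcc, hbb, hratio⟩ : ∃ c' : Fin 2 → k, c' = trw c ∧
      Base D (Place.comap D.hL D.hL (τ : L →ₐ[k] L) v) l c' ∧
      IsRes v (τ (l ^ (p * W.N)) / l ^ (p * W.N)) (1 : k) := by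
    have hov := over_comap D.hL D.hL (τ : L →ₐ[k] L) v
    rcases hb with ⟨e1, e2, e3⟩ | ⟨e1, e2, e3, e4⟩
    · refine ⟨_, rfl, Or.inl ⟨e1, ?_, ?_⟩, ?_⟩
      · change c 0 = 1
        rw [hc, e2]
      · rw [← hov.isRes_iff D.hL]
        change IsRes v (τ D.t) (c 1 + c 0)
        rw [hτ, hc, e2]
        exact e3.add isRes_one
      · rw [e1, one_pow, map_one, div_one]
        exact isRes_one
    · have ht0 : D.t⁻¹ ≠ 0 := by
        rw [← e1]
        exact (show Base D v l b'.u from Or.inr ⟨e1, e2, e3, e4⟩).l_ne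
      have ht : D.t ≠ 0 := fun h0 => ht0 (by rw [h0, inv_zero])
      have h1 : IsRes v (1 + D.t⁻¹) (1 : k) := by
        have := (isRes_one (v := v) (k := k)).add e4
        rwa [add_zero] at this
      have h1' : IsRes v (1 + D.t⁻¹)⁻¹ (1 : k) := by
        have := h1.inv D.hL one_ne_zero
        rwa [inv_one] at this
      have hne : 1 + D.t⁻¹ ≠ 0 := by
        intro h0
        rw [h0] at h1
        exact one_ne_zero (h1.unique isRes_zero)
      have hmul : D.t + 1 = D.t * (1 + D.t⁻¹) := by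
        rw [mul_add, mul_one, mul_inv_cancel₀ ht]
      refine ⟨_, rfl, Or.inr ⟨e1, ?_, ?_, ?_⟩, ?_⟩
      · change c 0 = 0
        rw [hc, e2]
      · change c 1 + c 0 = 1
        rw [hc, e2, e3, add_zero]
      · rw [← hov.isRes_iff D.hL]
        change IsRes v (τ D.t⁻¹) 0
        rw [map_inv₀, hτ, hmul, mul_inv]
        have := e4.mul h1'
        rwa [zero_mul] at this
      · rw [e1, map_pow, map_inv₀, hτ, hmul, mul_inv, mul_pow, mul_div_assoc, mul_comm,
          div_mul_cancel₀ _ (pow_ne_zero _ ht0)]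
        have := h1'.pow (p * W.N)
        rwa [one_pow] at this
  have hov := over_comap D.hL D.hL (τ : L →ₐ[k] L) v
  obtain ⟨hs', hA', hB'⟩ := hbb.scale
  obtain ⟨mo'⟩ := exists_model D _ hs' hA' hB'
  have eA : MvPolynomial.aeval c' (pullB W p hp).A = MvPolynomial.aeval c (pullB W p hp).A := by
    rw [hcc]
    exact aeval_trw W.A c
  have eB : MvPolynomial.aeval c' (pullB W p hp).B = MvPolynomial.aeval c (pullB W p hp).B := by
    rw [hcc]
    exact aeval_trw W.B c
  have fA : MvPolynomial.aeval c' (pullB W p hp).A =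
      1 ^ 4 * MvPolynomial.aeval c (pullB W p hp).A := by
    rw [eA, one_pow, one_mul]
  have fB : MvPolynomial.aeval c' (pullB W p hp).B =
      1 ^ 6 * MvPolynomial.aeval c (pullB W p hp).B := by
    rw [eB, one_pow, one_mul]
  have hd2 : disc (pullB W p hp) c' ≠ 0 := by
    unfold disc at hd' ⊢
    rw [eA, eB, hc]
    exact hd'
  subst hc
  have htr : ![(1 : L), D.t + 1] = trw ![(1 : L), D.t] := rfl
  have hτa : τ D.a = D.a := by
    have h := map_cA D (τ : L →ₐ[k] L)
    have h2 : ((τ : L →ₐ[k] L) D.t) = D.t + 1 := hτ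
    rw [h2] at h
    have h3 : MvPolynomial.aeval ![(1 : L), D.t + 1] (pullB W p hp).A = D.a := by
      rw [htr]
      exact aeval_trw W.A _
    exact (h.trans h3)
  have hτb : τ D.b = D.b := by
    have h := map_cB D (τ : L →ₐ[k] L)
    have h2 : ((τ : L →ₐ[k] L) D.t) = D.t + 1 := hτ
    rw [h2] at h
    have h3 : MvPolynomial.aeval ![(1 : L), D.t + 1] (pullB W p hp).B = D.b := by
      rw [htr]
      exact aeval_trw W.B _
    exact (h.trans h3)
  have n1 := cycJ_eq D hb hd' b'.u_ne mo a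
  have n2 := cycJ_eq D hbb hd2 hbb.c_ne mo' (scF 1 one_ne_zero fA fB a)
  have n3 := twist_cycG hτa hτb hl he hov mo mo' one_ne_zero hratio fA fB hd' a
  rw [← ha] at n1
  rw [← ptJ_rotB b'.u_ne hbb.c_ne hcc fA fB a, ← ha] at n2
  have n4 := nul_map hl n1
  have e4 : Finsupp.mapDomain (linPt hl) (cycJ D (WPt.mk b') - mo.cyc a) =
      Finsupp.mapDomain (linPt hl) (cycJ D (WPt.mk b')) -
        Finsupp.mapDomain (linPt hl) (mo.cyc a) := by
    change Finsupp.lmapDomain ℤ ℤ (linPt hl) _ = _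
    rw [map_sub]
    rfl
  rw [e4] at n4
  have n5 := (n2.sub n3).sub n4
  have e5 : cycJ D (rotB (WPt.mk b')) - mo'.cyc (scF 1 one_ne_zero fA fB a) -
      (Finsupp.mapDomain (linPt hl) (mo.cyc a) - mo'.cyc (scF 1 one_ne_zero fA fB a)) -
      (Finsupp.mapDomain (linPt hl) (cycJ D (WPt.mk b')) -
        Finsupp.mapDomain (linPt hl) (mo.cyc a)) =
      cycJ D (rotB (WPt.mk b')) - Finsupp.mapDomain (linPt hl) (cycJ D (WPt.mk b')) := by
    abel
  rwa [e5] at n5

end CX.CHB
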