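import Mathlib
import Pool.Agent.Helper9.NS
import Pool.Agent.Helper40.CX.CHB.Equi
import Pool.Agent.Helper40.CX.CHI.TwOf
import Pool.Agent.Helper40.CX.CHI.Transfer
import Pool.Agent.Helper40.CX.CHB.Gal
import Pool.Agent.Helper40.CX.H21TO.Final

/-!
# Additive base changes of genus one fibrations: arbitrary projective models
-/

set_option autoImplicit false
set_option linter.unusedSectionVars false

namespace CX.CHB

open CX.VC CX.VF Function Polynomial CX.CHI
open CX.Pool.Agent.Helper51.EW (Wei Coord WPt aff zeroPt)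
open CX.Pool.Agent.Helper21.TO IntermediateField

universe u

section

variable {k : Type u} [Field k] {W : Wei k} {p : ℕ} {hp : p ≠ 0} {L : Type u} [Field L] [Algebra k L]

theorem cA_pullB (w : L) : cA (pullB W p hp) w = cA W (w ^ p - w) := by
  change MvPolynomial.aeval ![1, w] (MvPolynomial.bind₁ (asg p k) W.A) =
    MvPolynomial.aeval ![1, w ^ p - w] W.A
  rw [aeval_asg]
  congr 2
  funext i
  fin_cases i
  · exact one_pow p
  · change w ^ p - w * 1 ^ (p - 1) = w ^ p - w
    rw [one_pow, mul_one]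

theorem cB_pullB (w : L) : cB (pullB W p hp) w = cB W (w ^ p - w) := by
  change MvPolynomial.aeval ![1, w] (MvPolynomial.bind₁ (asg p k) W.B) =
    MvPolynomial.aeval ![1, w ^ p - w] W.B
  rw [aeval_asg]
  congr 2
  funext i
  fin_cases i
  · exact one_pow p
  · change w ^ p - w * 1 ^ (p - 1) = w ^ p - w
    rw [one_pow, mul_one]

end

section

variable {k : Type u} [Field k] [IsAlgClosed k] {W : Wei k} {p : ℕ} {hp : p ≠ 0}

/-- The base change of a form different from zero is different from zero. -/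
theorem bindB_ne_zero (h1 : 1 < p) {F : MvPolynomial (Fin 2) k} (hF : F ≠ 0) :
    MvPolynomial.bind₁ (asg p k) F ≠ 0 := by
  intro h0
  apply hF
  apply MvPolynomial.funext
  intro c
  rw [map_zero]
  obtain ⟨u0, hu0⟩ := IsAlgClosed.exists_pow_nat_eq (c 0) (n := p) (by omega)
  obtain ⟨u1, hu1⟩ := IsAlgClosed.exists_root (X ^ p - C (u0 ^ (p - 1)) * X - C (c 1) : k[X]) (by
    have hd : (X ^ p - C (u0 ^ (p - 1)) * X - C (c 1) : k[X]).degree = p := by
      rw [sub_sub]
      apply degree_sub_eq_left_of_degree_lt ?_ |>.trans (degree_X_pow p)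
      rw [degree_X_pow]
      refine (degree_add_le _ _).trans_lt (max_lt ?_ ?_)
      · refine (degree_C_mul_X_le _).trans_lt ?_
        exact_mod_cast h1
      · refine degree_C_le.trans_lt ?_
        exact_mod_cast (by omega : 0 < p)
    rw [hd]
    exact_mod_cast (by omega : p ≠ 0))
  have h2 := congrArg (MvPolynomial.aeval ![u0, u1]) h0
  rw [aeval_asg, map_zero] at h2
  have e : asw p ![u0, u1] = c := by
    funext i
    fin_cases i
    · exact hu0
    · change u1 ^ p - u1 * u0 ^ (p - 1) = c 1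
      have h3 : u1 ^ p - u0 ^ (p - 1) * u1 - c 1 = 0 := by
        have := hu1
        rw [IsRoot.def] at this
        simpa using this
      linear_combination h3
  rw [e] at h2
  exact h2

theorem disc_pullB (h1 : 1 < p) (hΔ : 4 * W.A ^ 3 + 27 * W.B ^ 2 ≠ 0) :
    4 * (pullB W p hp).A ^ 3 + 27 * (pullB W p hp).B ^ 2 ≠ 0 := by
  have h := bindB_ne_zero h1 hΔ
  rw [map_add, map_mul, map_mul, map_pow, map_pow, map_ofNat, map_ofNat] at h
  exact h

end

variable {k : Type u} [Field k] [IsAlgClosed k] [CX.Good k] {W : Wei k} {r : ℕ} {hr : r ≠ 0}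
  [Fact r.Prime] [CharP k r]
variable {L Ω : Type u} [Field L] [Algebra k L] [Field Ω] [Algebra k Ω] [Algebra L Ω]
  [IsScalarTower k L Ω]

/-- Voisin's property for the characters of the cyclic base change of a genus one fibration,
given the property for the Weierstrass model, on every projective model on which the group acts
by linear maps. -/
theorem voisinChi_torsorB (hΔ : 4 * W.A ^ 3 + 27 * W.B ^ 2 ≠ 0)
    (hmin : Minimal (pullB W r hr)) (T : Torsor W L Ω) {w : L} (hw : w ^ r - w = T.t) {M : ℕ}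
    (ξ : Fin M → Ω) (hξ : ξ ≠ 0)
    (hfix : ∀ σ ∈ T.G, σ (algebraMap L Ω w) = algebraMap L Ω w → ∀ i, σ (ξ i) = ξ i)
    {σ₀ : Ω ≃ₐ[k] Ω} (hσ₀ : σ₀ ∈ T.G)
    (hσw : σ₀ (algebraMap L Ω w) = algebraMap L Ω w + 1)
    {g : Matrix (Fin M) (Fin M) k} (hlin : ∀ i, σ₀ (ξ i) = mulV g ξ i)
    (hl : Lin g (van k ξ)) {χ : ℂ} (hχ : χ ≠ 1) {n : ℕ}
    (hJ : VoisinChi (pullB W r hr).surface rotB χ n) :
    VoisinChi (proj k (van k ξ)) (linPt hl) χ n := by
  classical
  have hr1 : 1 < r := (Fact.out : r.Prime).one_lt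
  have hL0 : CX.Good L := CX.Good.ext k
  have htw : Transcendental k w := by
    intro h
    apply T.ht
    rw [← hw]
    exact (h.pow r).sub h
  have hΔm := disc_pullB (p := r) (hp := hr) hr1 hΔ
  have eA : cA (pullB W r hr) w = cA W T.t := by rw [cA_pullB, hw]
  have eB : cB (pullB W r hr) w = cB W T.t := by rw [cB_pullB, hw]
  have hdisc : 4 * cA (pullB W r hr) w ^ 3 + 27 * cB (pullB W r hr) w ^ 2 ≠ 0 := disc_ne_zero hΔm htw
  have heqn : T.y ^ 2 = T.x ^ 3 + algebraMap L Ω (cA (pullB W r hr) w) * T.x +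
      algebraMap L Ω (cB (pullB W r hr) w) := by
    rw [eA, eB]
    exact T.eqn
  obtain ⟨c, p, q, hc, hg⟩ := exists_num _ _ T.x T.y heqn T.gen ξ
  obtain ⟨H, hfin, hH1, hH2⟩ := exists_res_subgroup T.G T.finG T.stable
  have hinj : Function.Injective (algebraMap L Ω) := (algebraMap L Ω).injective
  have hne : ∃ i, p i ≠ 0 ∨ q i ≠ 0 := by
    by_contra hcon
    push Not at hcon
    obtain ⟨i, hi⟩ := Function.ne_iff.mp hξ
    have h1 := hg i
    rw [(hcon i).1, (hcon i).2, map_zero, zero_mul, zero_add] at h1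
    exact hi ((mul_eq_zero.mp h1).resolve_left hc)
  -- the stabiliser of `w`
  let Hw : Subgroup (L ≃ₐ[k] L) :=
    { carrier := {τ | τ ∈ H ∧ τ w = w}
      mul_mem' := by
        rintro a b ⟨ha, ha'⟩ ⟨hb, hb'⟩
        refine ⟨mul_mem ha hb, ?_⟩
        change a (b w) = w
        rw [hb', ha']
      one_mem' := ⟨one_mem _, rfl⟩
      inv_mem' := by
        rintro a ⟨ha, ha'⟩
        refine ⟨inv_mem ha, ?_⟩
        change a.symm w = w
        rw [AlgEquiv.symm_apply_eq]
        exact ha'.symm }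
  have hHw : Finite Hw := Finite.of_injective
    (fun τ : Hw => (⟨τ.1, τ.2.1⟩ : H)) (fun a b h => Subtype.ext (congrArg (fun x : H => x.1) h))
  let D : Dat (pullB W r hr) L :=
    { hL := T.hL
      t := w
      ht := htw
      hΔ := hdisc
      H := Hw
      finH := hHw
      fixt := fun τ hτ => hτ.2
      fixed := by
        intro z hz
        refine CHB.mem_adjoin_of_stab H hfin (t := T.t) (fun z hz => ?_) (by
            rw [← hw]
            exact sub_mem (pow_mem (mem_adjoin_simple_self k w) r) (mem_adjoin_simple_self k w))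
          (fun τ hτ hτw => hz τ ⟨hτ, hτw⟩)
        apply T.fixed
        intro σ hσ
        obtain ⟨τ, hτ, h⟩ := hH2 σ hσ
        rw [h, hz τ hτ]
      r := T.r
      hr := by
        rw [eA, eB]
        exact T.hr
      s := T.s
      hs := T.hs
      M := M
      I := van k ξ
      p := p
      q := q
      ne := hne
      sat := by
        intro K _ _ ι x y h
        exact sat_of p q _ _ T.x T.y T.hx heqn ξ c hg K ι x y h
      tw := by
        rintro τ ⟨hτ, hτw⟩
        obtain ⟨σ, hσ, h⟩ := hH1 τ hτ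
        have hfixσ : ∀ i, σ (ξ i) = ξ i := by
          apply hfix σ hσ
          rw [h, hτw]
        rcases T.translation σ hσ with ⟨h1, h2⟩ | ⟨e, f, h0, h1, h2⟩
        · exact ⟨0, tw_of_zero p q _ _ T.x T.y T.hx heqn ξ c hg σ τ h hfixσ h1 h2⟩
        · have h0' : f ^ 2 = e ^ 3 + cA (pullB W r hr) w * e + cB (pullB W r hr) w := by
            rw [eA, eB]
            exact h0
          exact ⟨_, tw_of_some p q _ _ T.x T.y T.hx heqn ξ c hg σ τ h hfixσ e f
            (nonsingular_of_disc hdisc h0') h1 h2⟩ }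
  have hev : ev p q (IsScalarTower.toAlgHom k L Ω) T.x T.y = fun i => c * ξ i := by
    funext i
    rw [hg i]
    rfl
  have hlink : Link (pullB W r hr).surface D.S (cycJ D) := by
    refine link hΔm hmin D (IsScalarTower.toAlgHom k L Ω) T.x T.y heqn ?_
    intro P m' hP h
    change MvPolynomial.aeval (ev p q (IsScalarTower.toAlgHom k L Ω) T.x T.y) P = 0 at h
    rw [hev, aeval_smul' hP] at h
    exact (mul_eq_zero.mp h).resolve_left (pow_ne_zero _ hc)
  obtain ⟨τ, hτ, hτσ⟩ := hH2 σ₀ hσ₀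
  have hτw : τ D.t = D.t + 1 := by
    apply hinj
    rw [← hτσ]
    change σ₀ (algebraMap L Ω w) = algebraMap L Ω (w + 1)
    rw [hσw, map_add, map_one]
  obtain ⟨e, he⟩ : ∃ e : EPt D.a D.b, TwG D.p D.q D.a D.b τ g e := by
    rcases T.translation σ₀ hσ₀ with ⟨h1, h2⟩ | ⟨e, f, h0, h1, h2⟩
    · exact ⟨0, twG_of_zero p q _ _ T.x T.y T.hx heqn ξ c hg σ₀ τ hτσ hlin h1 h2⟩
    · have h0' : f ^ 2 = e ^ 3 + cA (pullB W r hr) w * e + cB (pullB W r hr) w := by
        rw [eA, eB]
        exact h0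
      exact ⟨_, twG_of_some p q _ _ T.x T.y T.hx heqn ξ c hg σ₀ τ hτσ hlin e f
        (nonsingular_of_disc hdisc h0') h1 h2⟩
  exact transferChi hlink (fun y => cycJ_rotB D hτw hl he y) hχ hJ

end CX.CHB
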