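import Mathlib
import Pool.Agent.Helper40.CX.CHI.Const
import Pool.Agent.Helper40.CX.CHB.Final

/-!
# Additive base changes of genus one fibrations: extension of the field of constants
-/

set_option autoImplicit false

namespace CX.CHB

open IntermediateField CX.CHI CX.VC CX.Pool.Agent.Helper21.TO CX.BC
open CX.Pool.Agent.Helper51.EW (Wei)

theorem pullB_bc {O : Type} [Field O] (W : Wei O) {p : ℕ} (hp : p ≠ 0) (Ω : Type) [Field Ω]
    [Algebra O Ω] : bcW (pullB W p hp) Ω = pullB (bcW W Ω) p hp := by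
  have h : ∀ F : MvPolynomial (Fin 2) O, MvPolynomial.map (algebraMap O Ω)
      (MvPolynomial.bind₁ (asg p O) F) =
        MvPolynomial.bind₁ (asg p Ω) (MvPolynomial.map (algebraMap O Ω) F) := by
    intro F
    rw [MvPolynomial.map_bind₁]
    congr 2
    funext i
    fin_cases i
    · change MvPolynomial.map (algebraMap O Ω) (MvPolynomial.X 0 ^ p) = MvPolynomial.X 0 ^ p
      simp
    · change MvPolynomial.map (algebraMap O Ω) (MvPolynomial.X 1 ^ p -
        MvPolynomial.X 1 * MvPolynomial.X 0 ^ (p - 1)) =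
          MvPolynomial.X 1 ^ p - MvPolynomial.X 1 * MvPolynomial.X 0 ^ (p - 1)
      simp
  unfold bcW pullB
  congr 1
  · exact h W.A
  · exact h W.B

section

variable {O Ω L E B M : Type} [Field O] [Field Ω] [Field L] [Field E] [Field B] [Field M]
  [Algebra O Ω] [Algebra O L] [Algebra O E] [Algebra L E] [IsScalarTower O L E] [Algebra Ω B]
  [Algebra O M] {W : Wei O}

/-- Voisin's property for the nontrivial characters of the additive base change `M = R (w)`,
`w ^ p - w = t`, of a genus one fibration, after every extension of the field of constants, on every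
projective model on which the group acts by linear maps, given the property for the Weierstrass
models. -/
theorem voisinChi_constB [IsAlgClosed O] [Good O] {p : ℕ} (hp : p ≠ 0) [Fact p.Prime] [CharP O p]
    (hΔ : 4 * W.A ^ 3 + 27 * W.B ^ 2 ≠ 0) (hW : Minimal (pullB W p hp)) (T : Torsor W L E) {w : L}
    (hw : w ^ p - w = T.t) (f : M →ₐ[O] E)
    (hf : ∀ z, ∀ σ ∈ T.G, σ (algebraMap L E w) = algebraMap L E w → σ (f z) = f z)
    {σ₀ : E ≃ₐ[O] E} (hσ₀ : σ₀ ∈ T.G)
    (hσw : σ₀ (algebraMap L E w) = algebraMap L E w + 1) (s : M ≃ₐ[O] M)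
    (hs : ∀ z, f (s z) = σ₀ (f z)) (Ω : Type) [Field Ω] [Algebra O Ω] [IsAlgClosed Ω]
    [Good Ω] [CharP Ω p] :
    ∃ (F : Type) (_ : Field F) (_ : Algebra Ω F) (i : M →+* F) (σ : F ≃ₐ[Ω] F),
      IsConst O Ω M F i ∧ (∀ z, σ (i z) = i (s z)) ∧
      ∀ (N : ℕ) (ξ : Fin N → F), ξ ≠ 0 → ∀ g : Matrix (Fin N) (Fin N) Ω,
        (∀ l, σ (ξ l) = mulV g ξ l) →
        ∀ t : (proj Ω (van Ω ξ)).Pt → (proj Ω (van Ω ξ)).Pt,
          (∀ x, ∃ c : Ω, ∀ l, mulV g x.1.rep l = c * (t x).1.rep l) →
          ∀ (n : ℕ) (χ : ℂ), χ ≠ 1 →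
            VoisinChi (pullB (bcW W Ω) p hp).surface rotB χ n →
            VoisinChi (proj Ω (van Ω ξ)) t χ n := by
  obtain ⟨B, _, _, i, hi, hlift⟩ := exists_const O Ω E
  obtain ⟨σ', hσ'⟩ := hlift σ₀
  -- the lift of `σ₀` maps the field of the surface to itself
  have hmap : ∀ z : cs Ω i (f : M →+* E), σ' (z : B) ∈ cs Ω i (f : M →+* E) := by
    rintro ⟨z, hz⟩
    change σ' z ∈ cs Ω i (f : M →+* E)
    change z ∈ adjoin Ω (Set.range (i.comp (f : M →+* E))) at hz
    induction hz using adjoin_induction with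
    | mem x hx =>
      obtain ⟨x, rfl⟩ := hx
      change σ' (i (f x)) ∈ _
      rw [hσ', ← hs]
      exact (csm Ω i (f : M →+* E) (s x)).2
    | algebraMap c => rw [AlgEquiv.commutes]; exact IntermediateField.algebraMap_mem _ _
    | add x y _ _ hx hy => rw [map_add]; exact add_mem hx hy
    | inv x _ hx => rw [map_inv₀]; exact inv_mem hx
    | mul x y _ _ hx hy => rw [map_mul]; exact mul_mem hx hy
  let σG : cs Ω i (f : M →+* E) →ₐ[Ω] cs Ω i (f : M →+* E) :=
    ((σ' : B →ₐ[Ω] B).comp (cs Ω i (f : M →+* E)).val).codRestrict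
      (cs Ω i (f : M →+* E)).toSubalgebra hmap
  have hsurj : Function.Surjective σG := by
    have h1 : ∀ z (hz : z ∈ cs Ω i (f : M →+* E)), ∃ y : cs Ω i (f : M →+* E), σ' (y : B) = z := by
      intro z hz
      change z ∈ adjoin Ω (Set.range (i.comp (f : M →+* E))) at hz
      induction hz using adjoin_induction with
      | mem x hx =>
        obtain ⟨x, rfl⟩ := hx
        refine ⟨csm Ω i (f : M →+* E) (s.symm x), ?_⟩
        change σ' (i (f (s.symm x))) = i (f x)
        rw [hσ', ← hs, AlgEquiv.apply_symm_apply]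
      | algebraMap c =>
        exact ⟨algebraMap Ω _ c, σ'.commutes c⟩
      | add x y _ _ hx hy =>
        obtain ⟨a, ha⟩ := hx
        obtain ⟨b, hb⟩ := hy
        refine ⟨a + b, ?_⟩
        change σ' ((a : B) + b) = x + y
        rw [map_add, ha, hb]
      | inv x _ hx =>
        obtain ⟨a, ha⟩ := hx
        refine ⟨a⁻¹, ?_⟩
        change σ' ((a : B)⁻¹) = x⁻¹
        rw [map_inv₀, ha]
      | mul x y _ _ hx hy =>
        obtain ⟨a, ha⟩ := hx
        obtain ⟨b, hb⟩ := hy
        refine ⟨a * b, ?_⟩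
        change σ' ((a : B) * b) = x * y
        rw [map_mul, ha, hb]
    rintro ⟨z, hz⟩
    obtain ⟨y, hy⟩ := h1 z hz
    exact ⟨y, Subtype.ext hy⟩
  let σF : cs Ω i (f : M →+* E) ≃ₐ[Ω] cs Ω i (f : M →+* E) :=
    AlgEquiv.ofBijective σG ⟨σG.toRingHom.injective, hsurj⟩
  refine ⟨cs Ω i (f : M →+* E), inferInstance, inferInstance, csm Ω i (f : M →+* E), σF,
    hi.sub f, fun z => ?_, ?_⟩
  · apply Subtype.ext
    change σ' (i (f z)) = i (f (s z))
    rw [hσ', hs]
  intro N ξ hξ g hg t ht n χ hχ hJ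
  -- the elements which fix `w` act trivially on the field of the surface
  have hfix : ∀ σ ∈ (tors T hi hlift).G,
      σ (algebraMap (cs Ω i (algebraMap L E)) B (csm Ω i (algebraMap L E) w)) =
        algebraMap (cs Ω i (algebraMap L E)) B (csm Ω i (algebraMap L E) w) →
      ∀ z : cs Ω i (f : M →+* E), σ (z : B) = z := by
    rintro τ' ⟨τ, hτ, h⟩ hw' z
    have hτw : τ (algebraMap L E w) = algebraMap L E w := by
      have h1 : τ' (i (algebraMap L E w)) = i (algebraMap L E w) := hw'
      rw [h] at h1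
      exact i.injective h1
    obtain ⟨z, hz⟩ := z
    change τ' z = z
    change z ∈ adjoin Ω (Set.range (i.comp (f : M →+* E))) at hz
    induction hz using adjoin_induction with
    | mem x hx =>
      obtain ⟨x, rfl⟩ := hx
      change τ' (i (f x)) = i (f x)
      rw [h, hf x τ hτ hτw]
    | algebraMap c => rw [AlgEquiv.commutes]
    | add x y _ _ hx hy => rw [map_add, hx, hy]
    | inv x _ hx => rw [map_inv₀, hx]
    | mul x y _ _ hx hy => rw [map_mul, hx, hy]
  have hmem : σ' ∈ (tors T hi hlift).G := ⟨σ₀, hσ₀, hσ'⟩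
  have hσ'w : σ' (algebraMap (cs Ω i (algebraMap L E)) B (csm Ω i (algebraMap L E) w)) =
      algebraMap (cs Ω i (algebraMap L E)) B (csm Ω i (algebraMap L E) w) + 1 := by
    change σ' (i (algebraMap L E w)) = i (algebraMap L E w) + 1
    rw [hσ', hσw, map_add, map_one]
  have hξ' : (fun l => (ξ l : B)) ≠ 0 := by
    intro h0
    apply hξ
    funext l
    apply Subtype.ext
    exact congrFun h0 l
  have hlin : ∀ l, σ' (ξ l : B) = mulV g (fun l => (ξ l : B)) l := by
    intro l
    have h1 := congrArg (fun z : cs Ω i (f : M →+* E) => (z : B)) (hg l)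
    have h2 := congrFun (mulV_map g ξ (cs Ω i (f : M →+* E)).val) l
    exact h1.trans h2
  -- the power of the lift acts trivially
  have hpow : mulV (g ^ p) (fun l => (ξ l : B)) = fun l => (ξ l : B) := by
    funext l
    rw [← iterate_mulV hlin p l]
    apply hfix _ (pow_mem hmem p)
    have h1 : ∀ j : ℕ, (σ' ^ j) (algebraMap (cs Ω i (algebraMap L E)) B
        (csm Ω i (algebraMap L E) w)) =
        algebraMap (cs Ω i (algebraMap L E)) B (csm Ω i (algebraMap L E) w) + (j : B) := by
      intro j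
      induction j with
      | zero => rw [pow_zero, Nat.cast_zero, add_zero]; rfl
      | succ j ih =>
        rw [pow_succ']
        change σ' ((σ' ^ j) _) = _
        rw [ih, map_add, map_natCast, hσ'w, Nat.cast_add, Nat.cast_one]
        ring
    have hB : CharP B p := charP_of_injective_algebraMap (algebraMap Ω B).injective p
    rw [h1, CharP.cast_eq_zero, add_zero]
  have hl : Lin g (van Ω fun l => (ξ l : B)) :=
    lin_van (σ := (σ' : B →ₐ[Ω] B)) hlin hp hpow
  have hmin : Minimal (pullB (bcW W Ω) p hp) := by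
    rw [← pullB_bc]
    exact minimal_bc (disc_pullB (Fact.out : p.Prime).one_lt hΔ) hW
  have hw' : csm Ω i (algebraMap L E) w ^ p - csm Ω i (algebraMap L E) w = (tors T hi hlift).t := by
    change csm Ω i (algebraMap L E) w ^ p - csm Ω i (algebraMap L E) w = csm Ω i (algebraMap L E) T.t
    rw [← map_pow, ← map_sub, hw]
  have key := voisinChi_torsorB (disc_bc hΔ) hmin (tors T hi hlift) hw'
    (fun l => (ξ l : B)) hξ' (fun σ hσ hσw l => hfix σ hσ hσw (ξ l)) hmem hσ'w hlin hl hχ hJ
  have key2 : ∀ I : Set (MvPolynomial (Fin N) Ω), I = van Ω (fun l => (ξ l : B)) →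
      ∀ t : (proj Ω I).Pt → (proj Ω I).Pt,
        (∀ x, ∃ c : Ω, ∀ l, mulV g x.1.rep l = c * (t x).1.rep l) →
        VoisinChi (proj Ω I) t χ n := by
    rintro _ rfl t ht
    have e : t = linPt hl := by
      funext x
      exact (linPt_unique hl (ht x)).symm
    rw [e]
    exact key
  exact key2 _ (van_val ξ) t ht

end

end CX.CHB
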