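import Mathlib
import Pool.Agent.Helper40.CX.CHI.Eqn

/-!
# The splitting data of the field `O (x, y, w)`, `y ^ 2 = x ^ 3 + A (1, P (w)) x + B (1, P (w))`
-/

set_option autoImplicit false
set_option linter.unusedSectionVars false

namespace CX.CHB

open IntermediateField CX.CHI CX.VC CX.VF CX.Pool.Agent.Helper21.TO
open CX.Pool.Agent.Helper51.EW (Wei)
open scoped IntermediateField.algebraAdjoinAdjoin

section

variable {O M : Type} [Field O] [IsAlgClosed O] [CX.Good O] [Field M] [Algebra O M] {W : Wei O}
  {P : Polynomial O} {x y w : M}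

theorem triv_dataP (hP : Polynomial.derivative P ≠ 0) (hΔ : 4 * W.A ^ 3 + 27 * W.B ^ 2 ≠ 0)
    (hxw : AlgebraicIndependent O ![x, w])
    (heq : y ^ 2 = x ^ 3 + MvPolynomial.aeval ![1, Polynomial.aeval w P] W.A * x +
      MvPolynomial.aeval ![1, Polynomial.aeval w P] W.B)
    (hgen : adjoin O {x, y, w} = ⊤) (s : M ≃ₐ[O] M) (hsx : s x = x)
    (hsy : s y = y) (hsw : Polynomial.aeval (s w) P = Polynomial.aeval w P) :
    ∃ (L E : Type) (_ : Field L) (_ : Field E) (_ : Algebra O L) (_ : Algebra O E)
      (_ : Algebra L E) (_ : IsScalarTower O L E) (T : Torsor W L E) (w0 : L) (f : M →ₐ[O] E)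
      (σ₀ : E ≃ₐ[O] E), Polynomial.aeval w0 P = T.t ∧
      (∀ z, ∀ σ ∈ T.G, σ (algebraMap L E w0) = algebraMap L E w0 → σ (f z) = f z) ∧
      σ₀ ∈ T.G ∧ f w = algebraMap L E w0 ∧ ∀ z, f (s z) = σ₀ (f z) := by
  classical
  have hd : P.natDegree ≠ 0 := by
    intro h0
    apply hP
    rw [Polynomial.eq_C_of_natDegree_eq_zero h0, Polynomial.derivative_C]
  have hlc : P.leadingCoeff ∈ nonZeroDivisors O := by
    rw [mem_nonZeroDivisors_iff_ne_zero, ne_eq, Polynomial.leadingCoeff_eq_zero]
    rintro rfl
    exact hd Polynomial.natDegree_zero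
  let A := AlgebraicClosure M
  have hA : CX.Good A := CX.Good.ext O
  let ι : M →ₐ[O] A := IsScalarTower.toAlgHom O M A
  have hι : Function.Injective ι := (algebraMap M A).injective
  obtain ⟨x', hx'⟩ : ∃ x', x' = ι x := ⟨_, rfl⟩
  obtain ⟨y', hy'⟩ : ∃ y', y' = ι y := ⟨_, rfl⟩
  obtain ⟨w', hw'⟩ : ∃ w', w' = ι w := ⟨_, rfl⟩
  obtain ⟨u, hu'⟩ : ∃ u, u = Polynomial.aeval w' P := ⟨_, rfl⟩
  have hind : AlgebraicIndependent O ![x', w'] := by
    have h1 := hxw.map' hι
    have e : (ι ∘ ![x, w]) = ![x', w'] := by
      funext i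
      fin_cases i
      · exact hx'.symm
      · exact hw'.symm
    rwa [e] at h1
  have htw : Transcendental O w' := hind.transcendental 1
  have hu : Transcendental O u := by
    rw [hu']
    exact htw.aeval P hd hlc
  have hxw' : Transcendental (adjoin O {w'}) x' := by
    intro h
    have h1 := hind.transcendental_adjoin (s := {1}) (i := 0) (by simp)
    have e : (![x', w'] '' {1} : Set A) = {w'} := by simp
    rw [e] at h1
    exact h1 ((IsFractionRing.isAlgebraic_iff (Algebra.adjoin O {w'}) (adjoin O {w'}) A).mpr h)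
  have hxu : Transcendental (adjoin O {u}) x' := by
    intro h
    apply hxw'
    have hle : adjoin O {u} ≤ adjoin O {w'} := by
      rw [adjoin_simple_le_iff, hu']
      exact (Polynomial.aeval_mem_adjoin_singleton O w' |> fun h =>
        IntermediateField.algebra_adjoin_le_adjoin O _ h)
    exact h.ringHom_of_comp_eq (inclusion hle : adjoin O {u} →+* adjoin O {w'}) (RingHom.id A)
      (inclusion hle).toRingHom.injective rfl
  have hFv : ∀ F : MvPolynomial (Fin 2) O, ι (MvPolynomial.aeval ![1, Polynomial.aeval w P] F) =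
      MvPolynomial.aeval ![1, u] F := by
    intro F
    have h := MvPolynomial.comp_aeval_apply (R := O) (![1, Polynomial.aeval w P] : Fin 2 → M) ι F
    have e : (fun i => ι ((![1, Polynomial.aeval w P] : Fin 2 → M) i)) = ![1, u] := by
      funext i
      fin_cases i
      · exact map_one ι
      · change ι (Polynomial.aeval w P) = u
        rw [hu', hw', Polynomial.aeval_algHom_apply]
    rw [e] at h
    exact h
  have heq' : y' ^ 2 = x' ^ 3 + MvPolynomial.aeval ![1, u] W.A * x' +
      MvPolynomial.aeval ![1, u] W.B := by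
    rw [hx', hy', ← map_pow, heq, map_add, map_add, map_mul, map_pow, hFv, hFv]
  -- the field `A` is algebraic over the function field of the surface over the `u`-line
  have halg : Algebra.IsAlgebraic (adjoin (adjoin O {u}) {x', y'}) A := by
    have hu1 : u ∈ adjoin (adjoin O {u}) {x', y'} :=
      (adjoin (adjoin O {u}) {x', y'}).algebraMap_mem (AdjoinSimple.gen O u)
    have h1 : ∀ z : M, IsAlgebraic (adjoin (adjoin O {u}) {x', y'}) (ι z) := by
      intro z
      have hz : z ∈ adjoin O {x, y, w} := by rw [hgen]; trivial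
      induction hz using adjoin_induction with
      | mem z hz =>
        rcases hz with rfl | rfl | hz
        · have h2 : x' ∈ adjoin (adjoin O {u}) {x', y'} :=
            subset_adjoin _ _ (Set.mem_insert _ _)
          rw [← hx']
          exact isAlgebraic_algebraMap (⟨x', h2⟩ : adjoin (adjoin O {u}) {x', y'})
        · have h2 : y' ∈ adjoin (adjoin O {u}) {x', y'} :=
            subset_adjoin _ _ (Set.mem_insert_of_mem _ rfl)
          rw [← hy']
          exact isAlgebraic_algebraMap (⟨y', h2⟩ : adjoin (adjoin O {u}) {x', y'})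
        · rw [Set.mem_singleton_iff] at hz
          rw [hz, ← hw']
          have h3 := IsAlgebraic.of_aeval (r := w')
            (P.map (algebraMap O (adjoin (adjoin O {u}) {x', y'})))
            (by rwa [Polynomial.natDegree_map]) (by
              rw [mem_nonZeroDivisors_iff_ne_zero, ne_eq, Polynomial.leadingCoeff_eq_zero]
              intro h0
              apply hd
              rw [← Polynomial.natDegree_map (algebraMap O (adjoin (adjoin O {u}) {x', y'})), h0,
                Polynomial.natDegree_zero])
          apply h3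
          rw [Polynomial.aeval_map_algebraMap, ← hu']
          exact isAlgebraic_algebraMap (⟨u, hu1⟩ : adjoin (adjoin O {u}) {x', y'})
      | algebraMap c =>
        rw [AlgHom.commutes]
        exact isAlgebraic_algebraMap (algebraMap O (adjoin (adjoin O {u}) {x', y'}) c)
      | add a b _ _ ha hb => rw [map_add]; exact ha.add hb
      | inv a _ ha => rw [map_inv₀]; exact IsAlgebraic.inv_iff.mpr ha
      | mul a b _ _ ha hb => rw [map_mul]; exact ha.mul hb
    refine ⟨fun z => ?_⟩
    have hz : IsAlgebraic M z := Algebra.IsAlgebraic.isAlgebraic z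
    let N := algebraicClosure (adjoin (adjoin O {u}) {x', y'}) A
    have hN : ∀ z : M, ι z ∈ N := fun z => mem_algebraicClosure_iff.mpr (h1 z)
    let φ : M →+* N := (ι : M →+* A).codRestrict N hN
    have h2 : IsAlgebraic N z := hz.ringHom_of_comp_eq φ (RingHom.id A) φ.injective rfl
    exact h2.restrictScalars _
  -- the roots
  obtain ⟨r, hr⟩ := exists_three (MvPolynomial.aeval ![1, u] W.A : A)
    (MvPolynomial.aeval ![1, u] W.B)
  have hroot : ∀ i, r i ^ 3 + MvPolynomial.aeval ![1, u] W.A * r i +
      MvPolynomial.aeval ![1, u] W.B = 0 := by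
    intro i
    have h := congrArg (Polynomial.eval (r i)) hr
    rw [Polynomial.eval_prod, Finset.prod_eq_zero (Finset.mem_univ i) (by simp)] at h
    simp only [Polynomial.eval_add, Polynomial.eval_mul, Polynomial.eval_pow, Polynomial.eval_X,
      Polynomial.eval_C] at h
    exact h
  have hsq : ∀ i : Fin 3, ∃ z : A, z ^ 2 = r (i + 1) - r (i + 2) := fun i =>
    IsAlgClosed.exists_pow_nat_eq _ (by norm_num)
  choose q hq using hsq
  -- separability
  have hF0 : ∀ F : MvPolynomial (Fin 2) O, algebraMap (adjoin O {u}) A
      (MvPolynomial.aeval ![1, AdjoinSimple.gen O u] F) = MvPolynomial.aeval ![1, u] F := by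
    intro F
    have h := MvPolynomial.comp_aeval_apply (R := O)
      (![1, AdjoinSimple.gen O u] : Fin 2 → adjoin O {u})
      (IsScalarTower.toAlgHom O (adjoin O {u}) A) F
    have e : (fun i => (IsScalarTower.toAlgHom O (adjoin O {u}) A)
        ((![1, AdjoinSimple.gen O u] : Fin 2 → adjoin O {u}) i)) = ![1, u] := by
      funext i
      fin_cases i
      · simp
      · rfl
    rw [e] at h
    exact h
  have hsepw : IsSeparable (adjoin O {u}) w' := by
    refine isSeparable_of_simple
      (p := P.map (algebraMap O (adjoin O {u})) - Polynomial.C (AdjoinSimple.gen O u)) ?_ ?_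
    · rw [map_sub, Polynomial.aeval_map_algebraMap, Polynomial.aeval_C]
      change Polynomial.aeval w' P - u = 0
      rw [hu', sub_self]
    · rw [Polynomial.derivative_sub, Polynomial.derivative_C, sub_zero, Polynomial.derivative_map,
        Polynomial.aeval_map_algebraMap]
      intro h0
      exact htw ⟨_, hP, h0⟩
  have hdisc : 4 * (MvPolynomial.aeval ![1, u] W.A : A) ^ 3 +
      27 * (MvPolynomial.aeval ![1, u] W.B : A) ^ 2 ≠ 0 := disc_ne_zero hΔ hu
  have hsepr : ∀ i, IsSeparable (adjoin O {u}) (r i) := by
    intro i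
    refine isSeparable_of_simple (p := Polynomial.X ^ 3 +
      Polynomial.C (MvPolynomial.aeval ![1, AdjoinSimple.gen O u] W.A) * Polynomial.X +
      Polynomial.C (MvPolynomial.aeval ![1, AdjoinSimple.gen O u] W.B)) ?_ ?_
    · simp only [map_add, map_mul, map_pow, Polynomial.aeval_X, Polynomial.aeval_C]
      rw [hF0, hF0]
      exact hroot i
    · intro h0
      have h1 : 3 * r i ^ 2 + MvPolynomial.aeval ![1, u] W.A = 0 := by
        have h2 : Polynomial.derivative (Polynomial.X ^ 3 +
            Polynomial.C (MvPolynomial.aeval ![1, AdjoinSimple.gen O u] W.A) * Polynomial.X +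
            Polynomial.C (MvPolynomial.aeval ![1, AdjoinSimple.gen O u] W.B)) =
            3 * Polynomial.X ^ 2 +
              Polynomial.C (MvPolynomial.aeval ![1, AdjoinSimple.gen O u] W.A) := by
          simp only [Polynomial.derivative_add, Polynomial.derivative_mul, Polynomial.derivative_C,
            Polynomial.derivative_X_pow, Polynomial.derivative_X, zero_mul, mul_one, add_zero,
            zero_add]
          norm_num
          exact map_ofNat Polynomial.C 3
        rw [h2] at h0
        simp only [map_add, map_mul, map_pow, Polynomial.aeval_X, Polynomial.aeval_C,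
          map_ofNat] at h0
        rwa [hF0] at h0
      apply hdisc
      have h3 := hroot i
      have h4 : (MvPolynomial.aeval ![1, u] W.A : A) = -3 * r i ^ 2 := by linear_combination h1
      have h5 : (MvPolynomial.aeval ![1, u] W.B : A) = 2 * r i ^ 3 := by
        rw [h4] at h3
        linear_combination h3
      rw [h4, h5]
      ring
  have hsepq : ∀ i, IsSeparable (adjoin O {u}) (q i) := by
    intro i
    by_cases hqi : q i = 0
    · rw [hqi, ← map_zero (algebraMap (adjoin O {u}) A)]
      exact isSeparable_algebraMap _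
    · have hK1 : Algebra.IsSeparable (adjoin O {u}) (adjoin (adjoin O {u}) (Set.range r)) := by
        rw [isSeparable_adjoin_iff_isSeparable]
        rintro _ ⟨j, rfl⟩
        exact hsepr j
      have hr1 : ∀ j, r j ∈ adjoin (adjoin O {u}) (Set.range r) := fun j =>
        subset_adjoin _ _ ⟨j, rfl⟩
      have h1 : IsSeparable (adjoin (adjoin O {u}) (Set.range r)) (q i) := by
        refine isSeparable_of_simple (p := Polynomial.X ^ 2 - Polynomial.C
          ((⟨r (i + 1), hr1 _⟩ : adjoin (adjoin O {u}) (Set.range r)) - ⟨r (i + 2), hr1 _⟩)) ?_ ?_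
        · rw [map_sub, map_pow, Polynomial.aeval_X, Polynomial.aeval_C]
          change q i ^ 2 - (r (i + 1) - r (i + 2)) = 0
          rw [hq, sub_self]
        · rw [Polynomial.derivative_sub, Polynomial.derivative_X_pow, Polynomial.derivative_C,
            sub_zero, map_mul, map_pow, Polynomial.aeval_X, Polynomial.aeval_C, map_natCast]
          refine mul_ne_zero ?_ (pow_ne_zero _ hqi)
          have : (2 : A) ≠ 0 := two_ne_zero
          exact_mod_cast this
      exact IsSeparable.of_algebra_isSeparable_of_isSeparable (adjoin O {u}) h1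
  obtain ⟨L, hfin, hgal, hL⟩ := exists_galois (F := adjoin O {u}) (A := A)
    (insert w' (Finset.univ.image r ∪ Finset.univ.image q)) (by
      intro z hz
      rw [Finset.mem_insert, Finset.mem_union, Finset.mem_image, Finset.mem_image] at hz
      rcases hz with rfl | ⟨i, _, rfl⟩ | ⟨i, _, rfl⟩
      · exact hsepw
      · exact hsepr i
      · exact hsepq i)
  have hwL : w' ∈ L := hL _ (Finset.mem_insert_self _ _)
  have hrL : ∀ i, r i ∈ L := fun i => hL _ (Finset.mem_insert_of_mem (Finset.mem_union_left _
    (Finset.mem_image_of_mem _ (Finset.mem_univ i))))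
  have hqL : ∀ i, q i ∈ L := fun i => hL _ (Finset.mem_insert_of_mem (Finset.mem_union_right _
    (Finset.mem_image_of_mem _ (Finset.mem_univ i))))
  have hrL2 : (Polynomial.X ^ 3 + Polynomial.C (MvPolynomial.aeval ![1, tL L] W.A) *
      Polynomial.X + Polynomial.C (MvPolynomial.aeval ![1, tL L] W.B) : Polynomial L) =
        ∏ i, (Polynomial.X - Polynomial.C (⟨r i, hrL i⟩ : L)) := by
    apply Polynomial.map_injective (algebraMap L A) (algebraMap L A).injective
    have e1 : algebraMap L A (MvPolynomial.aeval ![1, tL L] W.A) =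
      MvPolynomial.aeval ![1, u] W.A := val_aeval L W.A
    have e2 : algebraMap L A (MvPolynomial.aeval ![1, tL L] W.B) =
      MvPolynomial.aeval ![1, u] W.B := val_aeval L W.B
    simp only [Polynomial.map_add, Polynomial.map_mul, Polynomial.map_pow, Polynomial.map_X,
      Polynomial.map_C, Polynomial.map_prod, Polynomial.map_sub]
    rw [e1, e2, hr]
    rfl
  let T : Torsor W L (adjoin L {x', y'}) := trivT L hu hxu heq' halg (fun i => ⟨r i, hrL i⟩) hrL2
    (fun i => ⟨q i, hqL i⟩) (fun i => Subtype.ext (hq i))
  have hmem : ∀ z : M, ι z ∈ adjoin L {x', y'} := by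
    intro z
    have hz : z ∈ adjoin O {x, y, w} := by rw [hgen]; trivial
    induction hz using adjoin_induction with
    | mem z hz =>
      rcases hz with rfl | rfl | hz
      · rw [← hx']
        exact subset_adjoin _ _ (Set.mem_insert _ _)
      · rw [← hy']
        exact subset_adjoin _ _ (Set.mem_insert_of_mem _ rfl)
      · rw [Set.mem_singleton_iff] at hz
        rw [hz, ← hw']
        exact (adjoin L {x', y'}).algebraMap_mem ⟨w', hwL⟩
    | algebraMap c =>
      rw [AlgHom.commutes]
      exact (adjoin L {x', y'}).algebraMap_mem (algebraMap O L c)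
    | add a b _ _ ha hb => rw [map_add]; exact add_mem ha hb
    | inv a _ ha => rw [map_inv₀]; exact inv_mem ha
    | mul a b _ _ ha hb => rw [map_mul]; exact mul_mem ha hb
  let f : M →ₐ[O] adjoin L {x', y'} :=
    { toFun := fun z => ⟨ι z, hmem z⟩
      map_one' := Subtype.ext (map_one ι)
      map_mul' := fun a b => Subtype.ext (map_mul ι a b)
      map_zero' := Subtype.ext (map_zero ι)
      map_add' := fun a b => Subtype.ext (map_add ι a b)
      commutes' := fun c => Subtype.ext (ι.commutes c) }
  -- the extension of `s` to the algebraic closure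
  let θ0 : A ≃+* A := IsAlgClosure.equivOfEquiv A A (s : M ≃+* M)
  have hθ0 : ∀ z : M, θ0 (ι z) = ι (s z) := fun z =>
    IsAlgClosure.equivOfEquiv_algebraMap A A (s : M ≃+* M) z
  let θ : A ≃ₐ[O] A := AlgEquiv.ofRingEquiv (f := θ0) (fun c => by
    have h1 : algebraMap O A c = ι (algebraMap O M c) := (ι.commutes c).symm
    rw [h1, hθ0, AlgEquiv.commutes])
  have hθ : ∀ z : M, θ (ι z) = ι (s z) := hθ0
  have hθu : θ u = u := by
    rw [hu', hw', Polynomial.aeval_algHom_apply]
    have e : Polynomial.aeval (s w) P = s (Polynomial.aeval w P) :=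
      Polynomial.aeval_algHom_apply (s : M →ₐ[O] M) w P
    rw [hθ, ← e, hsw]
  obtain ⟨σ₀, hσ₀, hσ₀z⟩ := exists_res L (x := x') (y := y') θ
    hθu
    (by rw [hx', hθ, hsx]) (by rw [hy', hθ, hsy])
  refine ⟨L, adjoin L {x', y'}, inferInstance, inferInstance, inferInstance, inferInstance,
    inferInstance, inferInstance, T, ⟨w', hwL⟩, f, σ₀, ?_, ?_, hσ₀, ?_, ?_⟩
  · apply Subtype.ext
    have e := Polynomial.aeval_algebraMap_apply A (⟨w', hwL⟩ : L) P
    exact e.symm.trans hu'.symm
  · intro z σ hσ hσw
    have hz : z ∈ adjoin O {x, y, w} := by rw [hgen]; trivial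
    induction hz using adjoin_induction with
    | mem z hz =>
      rcases hz with rfl | rfl | hz
      · have e : f z = xE L := Subtype.ext hx'.symm
        rw [e]
        exact hσ.1
      · have e : f z = yE L := Subtype.ext hy'.symm
        rw [e]
        exact hσ.2.1
      · rw [Set.mem_singleton_iff] at hz
        have e : f z = algebraMap L (adjoin L {x', y'}) ⟨w', hwL⟩ := by
          apply Subtype.ext
          change ι z = w'
          rw [hz, hw']
        rw [e]
        exact hσw
    | algebraMap c => rw [AlgHom.commutes, AlgEquiv.commutes]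
    | add a b _ _ ha hb => rw [map_add, map_add, ha, hb]
    | inv a _ ha => rw [map_inv₀, map_inv₀, ha]
    | mul a b _ _ ha hb => rw [map_mul, map_mul, ha, hb]
  · exact Subtype.ext hw'.symm
  · intro z
    apply Subtype.ext
    rw [hσ₀z]
    exact (hθ z).symm

end

end CX.CHB
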